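import Pool.Agent.V7H42.Fan.Top

/-!
# Retractions of `2^M` onto `C(M)` for cones over zero-dimensional compacta

The hyperspace `C(M)` of subcontinua is a retract of the hyperspace `2^M` of closed sets when `M` is
the cone over a compact metric space with exactly one limit point (the harmonic fan), and more
generally when `M` is the cone over any totally disconnected compact metric space. These continua
are not locally connected (unless the base is finite).
-/

set_option autoImplicit false

namespace Pool.Agent.Results.MP_85483e_gt.ConeRetractionH42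

open TopologicalSpace Set Filter Topology Pool.Agent.V7H42.Fan

/-- (1) Let `Z` be a compact metric space with exactly one limit point. The cone `M` over `Z` is a
(metrizable) continuum which is not locally connected, and `C(M)` is a retract of `2^M`.
(2) For every nonempty totally disconnected compact metric space `Z`, the cone `M` over `Z` is a
continuum, `C(M)` is a retract of `2^M`, and `M` is not locally connected if `Z` has a limit
point. -/
theorem result :
    (∀ (Z : Type) [MetricSpace Z] [CompactSpace Z], (∃! z : Z, (𝓝[≠] z).NeBot) →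
      CompactSpace (Cone Z) ∧ ConnectedSpace (Cone Z) ∧ MetrizableSpace (Cone Z) ∧
      ¬ LocallyConnectedSpace (Cone Z) ∧ RetractsOntoSubcontinua (Cone Z)) ∧
    (∀ (Z : Type) [MetricSpace Z] [CompactSpace Z] [Nonempty Z] [TotallyDisconnectedSpace Z],
      CompactSpace (Cone Z) ∧ ConnectedSpace (Cone Z) ∧ MetrizableSpace (Cone Z) ∧
      ((∃ z : Z, (𝓝[≠] z).NeBot) → ¬ LocallyConnectedSpace (Cone Z)) ∧
      RetractsOntoSubcontinua (Cone Z)) := by
  have gen : ∀ (Z : Type) [MetricSpace Z] [CompactSpace Z] [Nonempty Z]
      [TotallyDisconnectedSpace Z],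
      CompactSpace (Cone Z) ∧ ConnectedSpace (Cone Z) ∧ MetrizableSpace (Cone Z) ∧
      ((∃ z : Z, (𝓝[≠] z).NeBot) → ¬ LocallyConnectedSpace (Cone Z)) ∧
      RetractsOntoSubcontinua (Cone Z) := by
    intro Z _ _ _ _
    obtain ⟨φ, hφ, hφi, hφ1⟩ := exists_embedding Z
    refine ⟨inferInstance, cone_connected, ?_, ?_, retracts hφ hφi hφ1⟩
    · exact (isClosedEmbedding_toPlane hφ hφi).isEmbedding.metrizableSpace
    · rintro ⟨z₀, hz₀⟩
      exact cone_not_locallyConnected hφ hφi z₀ hz₀
  refine ⟨?_, gen⟩
  intro Z _ _ hZ
  have : TotallyDisconnectedSpace Z := totallyDisconnected_of_one hZ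
  obtain ⟨z₀, hz₀, hu⟩ := hZ
  have : Nonempty Z := ⟨z₀⟩
  obtain ⟨h1, h2, h3, h4, h5⟩ := gen Z
  exact ⟨h1, h2, h3, h4 ⟨z₀, hz₀⟩, h5⟩

end Pool.Agent.Results.MP_85483e_gt.ConeRetractionH42
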